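import Mathlib

/-!
# MP_d7db32_ag, Eq/T/Act: active columns

`τ` maps columns to rows; the column `a` is active if `w' (τ a) ≠ w a`.
`act0`: `#cols α = #rows α + 1` (`α ≠ β`); if every column of weight `α` is not active then `τ` maps the columns of weight `α` injectively to the rows of weight `α`, contradiction (`Finset.card_le_card_of_injOn`).
`act1`: with `ω = w' (τ a) ≠ β`: `#rows ω ≤ #cols ω`; if every column of weight `ω` is not active then `τ` maps the columns of weight `ω` injectively to the rows of weight `ω` different from `τ a` (`w a ≠ ω`), so `#cols ω + 1 ≤ #rows ω`,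
contradiction.
-/

set_option autoImplicit false

namespace PadDet.Eq

theorem act0 {m : ℕ} {W : Type} [DecidableEq W] {w w' : Fin m → W} {α β : W} (hαβ : α ≠ β)
    (h : ∀ ω : W, (Finset.univ.filter fun a => w a = ω).card + (if ω = β then 1 else 0) =
      (Finset.univ.filter fun b => w' b = ω).card + (if ω = α then 1 else 0))
    (τ : Equiv.Perm (Fin m)) : ∃ a, w a = α ∧ w' (τ a) ≠ w a := by
  by_contra hcon
  push Not at hcon
  have h1 := h α
  rw [if_neg hαβ, if_pos rfl] at h1
  have h2 : (Finset.univ.filter fun a => w a = α).card ≤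
      (Finset.univ.filter fun b => w' b = α).card := by
    refine Finset.card_le_card_of_injOn τ (fun a ha => ?_) (τ.injective.injOn)
    have ha1 : w a = α := by simpa using ha
    have h3 := hcon a ha1
    simpa using h3.trans ha1
  omega

theorem act1 {m : ℕ} {W : Type} [DecidableEq W] {w w' : Fin m → W} {α β : W}
    (h : ∀ ω : W, (Finset.univ.filter fun a => w a = ω).card + (if ω = β then 1 else 0) =
      (Finset.univ.filter fun b => w' b = ω).card + (if ω = α then 1 else 0))
    (τ : Equiv.Perm (Fin m)) {a : Fin m} (ha : w' (τ a) ≠ w a) (hb : w' (τ a) ≠ β) :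
    ∃ a', w a' = w' (τ a) ∧ w' (τ a') ≠ w a' := by
  by_contra hcon
  push Not at hcon
  have h1 := h (w' (τ a))
  rw [if_neg hb] at h1
  have hmem : τ a ∈ Finset.univ.filter fun b => w' b = w' (τ a) := by simp
  have h2 : (Finset.univ.filter fun a' => w a' = w' (τ a)).card ≤
      ((Finset.univ.filter fun b => w' b = w' (τ a)).erase (τ a)).card := by
    refine Finset.card_le_card_of_injOn τ (fun a' ha' => ?_) (τ.injective.injOn)
    have ha1 : w a' = w' (τ a) := by simpa using ha'
    have h3 := hcon a' ha1
    rw [Finset.mem_coe, Finset.mem_erase]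
    refine ⟨fun h4 => ?_, ?_⟩
    · rw [τ.injective h4] at ha1
      exact ha ha1.symm
    · simpa using h3.trans ha1
  have h3 := Finset.card_erase_add_one hmem
  omega

end PadDet.Eq
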