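import Pool.Agent.H.MP_d7db32_ag.Eq.L.Bas
import Pool.Agent.H.MP_d7db32_ag.Eq.F.Pwg

/-!
# MP_d7db32_ag, Eq/T/Wsm: the sum of the weights

`Fv (tor t X) = (∏ t) ^ 2 * Fv X` (`Fv_tor`) with `t l = 2`, `t i = 1` else: `D (L + M X) = (L + M (tor t X)) C` with `D = diagonal (mon t (w' b))`, `C = diagonal (mon t (w a))` (`mor_tor`, `gL`, `gE`, `M X = ∑ X i j M E_ij`; directly:
`mon t (w' b) * (M X) b a = (M (tor t X)) b a * mon t (w a)`). Determinants: `2 ^ (∑ w' b l) * c * Fv X = c * 4 * Fv X * 2 ^ (∑ w a l)` with `Fv X ≠ 0`, so `∑ w' b l = ∑ w a l + 2` (`zpow_right_injective₀` for the real numbers or `ℂ` with norms).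
Another way: `det (L + M X) ≠ 0` has a nonzero term; but then one has to follow the monomials of `Fv`.
-/

set_option autoImplicit false

namespace PadDet.Eq

open Matrix

variable {k m : ℕ} {c : ℂ} {L : Matrix (Fin m) (Fin m) ℂ}
  {M : Matrix (Fin (2 * k + 1)) (Fin (2 * k + 1)) ℂ →ₗ[ℂ] Matrix (Fin m) (Fin m) ℂ}
  {w w' : Fin m → Fin (2 * k + 1) → ℤ}

private theorem Wsm_prod {ι : Type*} (s : Finset ι) (f : ι → ℤ) :
    ∏ b ∈ s, (2 : ℂ) ^ f b = (2 : ℂ) ^ ∑ b ∈ s, f b := by
  classical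
  induction s using Finset.induction_on with
  | empty => rw [Finset.prod_empty, Finset.sum_empty, zpow_zero]
  | insert a s ha ih =>
    rw [Finset.prod_insert ha, Finset.sum_insert ha, ih, zpow_add₀ two_ne_zero]

private theorem Wsm_mon {n : ℕ} (l : Fin n) (v : Fin n → ℤ) :
    mon (Function.update (fun _ => (1 : ℂ)) l 2) v = (2 : ℂ) ^ v l := by
  unfold mon
  rw [Finset.prod_eq_single l]
  · rw [Function.update_self]
  · intro j _ hj
    rw [Function.update_of_ne hj, _root_.one_zpow]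
  · intro h
    exact absurd (Finset.mem_univ l) h

private theorem Wsm_inj {a b : ℤ} (h : (2 : ℂ) ^ a = (2 : ℂ) ^ b) : a = b := by
  have h1 : ‖(2 : ℂ) ^ a‖ = ‖(2 : ℂ) ^ b‖ := by rw [h]
  rw [norm_zpow, norm_zpow, Complex.norm_ofNat] at h1
  exact zpow_right_injective₀ (two_pos (α := ℝ)) (by norm_num) h1

theorem wsum (hG : Zg (2 * k + 1) m c L M w w')
    (hex : ∃ X : Matrix (Fin (2 * k + 1)) (Fin (2 * k + 1)) ℂ, Fv X ≠ 0) (l : Fin (2 * k + 1)) :
    ∑ b, w' b l = ∑ a, w a l + 2 := by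
  obtain ⟨X, hX⟩ := hex
  obtain ⟨t, ht⟩ : ∃ t : Fin (2 * k + 1) → ℂ, t = Function.update (fun _ => (1 : ℂ)) l 2 :=
    ⟨_, rfl⟩
  have ht0 : ∀ i, t i ≠ 0 := by
    intro i
    rw [ht]
    by_cases h : i = l
    · rw [h, Function.update_self]
      exact two_ne_zero
    · rw [Function.update_of_ne h]
      exact one_ne_zero
  have hmor : Mor L M (tor t) (Matrix.diagonal fun b => mon t (w' b))
      (Matrix.diagonal fun a => mon t (w a)) := by
    rw [mor_tor]
    constructor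
    · ext b a
      rw [Matrix.diagonal_mul, Matrix.mul_diagonal]
      by_cases h : L b a = 0
      · rw [h, mul_zero, zero_mul]
      · rw [hG.gL b a h, mul_comm]
    · intro i j
      ext b a
      rw [Matrix.diagonal_mul, Matrix.smul_apply, Matrix.mul_diagonal, smul_eq_mul]
      by_cases h : M (Matrix.single i j 1) b a = 0
      · rw [h, mul_zero, zero_mul, mul_zero]
      · rw [hG.gE b a i j h, mon_add ht0, mon_add ht0, mon_single, mon_single]
        ring
  have h1 := congrArg Matrix.det (hmor X)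
  rw [Matrix.det_mul, Matrix.det_mul, Matrix.det_diagonal, Matrix.det_diagonal, hG.det, hG.det,
    Fv_tor ht0] at h1
  have hprod : ∏ i, t i = 2 := by
    rw [Finset.prod_eq_single l]
    · rw [ht, Function.update_self]
    · intro j _ hj
      rw [ht, Function.update_of_ne hj]
    · intro h
      exact absurd (Finset.mem_univ l) h
  rw [hprod, ht] at h1
  simp only [Wsm_mon] at h1
  rw [Wsm_prod, Wsm_prod] at h1
  apply Wsm_inj
  rw [zpow_add₀ (two_ne_zero (α := ℂ))]
  have h2 : c * Fv X ≠ 0 := mul_ne_zero hG.c0 hX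
  have h3 : ((2 : ℂ) ^ (2 : ℤ)) = 2 ^ 2 := by norm_num
  rw [h3]
  refine mul_right_cancel₀ h2 ?_
  rw [h1]
  ring

end PadDet.Eq
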