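import Pool.Agent.H.MP_d7db32_ag.Eq.T.Ker
import Pool.Agent.H.MP_d7db32_ag.Eq.T.Wsm

/-!
# MP_d7db32_ag, Eq/T/Bal: the numbers of columns and rows of a given weight

`det L = c * Fv 0 = 0` (`hG.det 0`, `Fv 0 = 0`), so `ker_ine` and `ker_ine'` give `α`, `β` with `#cols ω ≤ #rows ω + [ω = α]` and `#rows ω ≤ #cols ω + [ω = β]`. The sum over all weights `ω` (in the image of `w` and `w'`, a finite set) of
`#cols` and of `#rows` is `m`, and `∑ ω, ω l * #cols ω = ∑ a, w a l`, `∑ ω, ω l * #rows ω = ∑ b, w' b l = ∑ a, w a l + 2` (`wsum`, `Finset.sum_fiberwise`). If `α = β`: for `ω ≠ α` the numbers agree, by the sum also for `α`, so the weighted sums agree,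
contradiction. If `α ≠ β`: the numbers agree for `ω ≠ α, β`; `d = #cols α - #rows α = #rows β - #cols β` is `0` or `1`, and `2 = ∑ w' - ∑ w = d * (β l - α l)` for all `l`, so `d = 1`, `β = α + 2`.
(One can put `e ω = #cols ω - #rows ω` in `ℤ` and work with `∑ ω ∈ S, e ω = 0`, `∑ ω ∈ S, e ω * ω l = - 2`.)
-/

set_option autoImplicit false

namespace PadDet.Eq

open Matrix

variable {k m : ℕ} {c : ℂ} {L : Matrix (Fin m) (Fin m) ℂ}
  {M : Matrix (Fin (2 * k + 1)) (Fin (2 * k + 1)) ℂ →ₗ[ℂ] Matrix (Fin m) (Fin m) ℂ}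
  {w w' : Fin m → Fin (2 * k + 1) → ℤ}

/-- the number of members of a family by fibres -/
private theorem Bal_cnt {m : ℕ} {W : Type} [DecidableEq W] (w : Fin m → W) (S : Finset W)
    (hS : ∀ a, w a ∈ S) :
    ∑ ω ∈ S, ((Finset.univ.filter fun a => w a = ω).card : ℤ) = m := by
  have h := Finset.card_eq_sum_card_fiberwise (s := (Finset.univ : Finset (Fin m))) (f := w)
    (t := S) (fun a _ => hS a)
  rw [Finset.card_univ, Fintype.card_fin] at h
  rw [← Nat.cast_sum, ← h]

/-- weighted sum by fibres -/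
private theorem Bal_wt {m : ℕ} {W : Type} [DecidableEq W] (w : Fin m → W) (S : Finset W)
    (hS : ∀ a, w a ∈ S) (v : W → ℤ) :
    ∑ ω ∈ S, v ω * ((Finset.univ.filter fun a => w a = ω).card : ℤ) = ∑ a, v (w a) := by
  rw [← Finset.sum_fiberwise_of_maps_to (s := (Finset.univ : Finset (Fin m))) (g := w)
    (t := S) (fun a _ => hS a)]
  refine Finset.sum_congr rfl fun ω _ => ?_
  rw [Finset.sum_congr rfl (fun a ha => by rw [(Finset.mem_filter.1 ha).2]),
    Finset.sum_const, nsmul_eq_mul, mul_comm]

/-- the arithmetic -/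
private theorem Bal_ar {n : ℕ} [NeZero n] (C R : (Fin n → ℤ) → ℤ) (S : Finset (Fin n → ℤ))
    {α β : Fin n → ℤ} (hα : α ∈ S) (hβ : β ∈ S)
    (h1 : ∀ ω, C ω ≤ R ω + (if ω = α then 1 else 0))
    (h2 : ∀ ω, R ω ≤ C ω + (if ω = β then 1 else 0))
    (h3 : ∑ ω ∈ S, C ω = ∑ ω ∈ S, R ω)
    (h4 : ∀ l, ∑ ω ∈ S, ω l * R ω = ∑ ω ∈ S, ω l * C ω + 2) :
    β = (fun l => α l + 2) ∧ ∀ ω, C ω + (if ω = (fun l => α l + 2) then 1 else 0) =
      R ω + (if ω = α then 1 else 0) := by
  have e3 : ∑ ω ∈ S, (R ω - C ω) = 0 := by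
    rw [Finset.sum_sub_distrib, h3, sub_self]
  have e4 : ∀ l, ∑ ω ∈ S, ω l * (R ω - C ω) = 2 := by
    intro l
    simp only [mul_sub]
    rw [Finset.sum_sub_distrib, h4 l]
    ring
  by_cases hαβ : α = β
  · exfalso
    subst hαβ
    have h5 : ∀ ω ∈ S, ω ≠ α → R ω - C ω = 0 := by
      intro ω _ hω
      have := h1 ω
      have := h2 ω
      rw [if_neg hω] at *
      omega
    have h6 : R α - C α = 0 := by
      rw [← e3]
      exact (Finset.sum_eq_single_of_mem α hα h5).symm
    have h7 := e4 0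
    rw [Finset.sum_eq_zero] at h7
    · omega
    · intro ω hω
      by_cases h : ω = α
      · rw [h, h6, mul_zero]
      · rw [h5 ω hω h, mul_zero]
  · have h5 : ∀ ω, ω ≠ α → ω ≠ β → R ω - C ω = 0 := by
      intro ω ha hb
      have a1 := h1 ω
      have a2 := h2 ω
      rw [if_neg ha] at a1
      rw [if_neg hb] at a2
      omega
    have hsum : ∀ v : (Fin n → ℤ) → ℤ, ∑ ω ∈ S, v ω * (R ω - C ω) =
        v α * (R α - C α) + v β * (R β - C β) := by
      intro v
      rw [← Finset.sum_pair hαβ (f := fun ω => v ω * (R ω - C ω))]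
      symm
      apply Finset.sum_subset
      · intro ω hω
        rw [Finset.mem_insert, Finset.mem_singleton] at hω
        rcases hω with rfl | rfl
        · exact hα
        · exact hβ
      · intro ω _ hω
        rw [Finset.mem_insert, Finset.mem_singleton, not_or] at hω
        rw [h5 ω hω.1 hω.2, mul_zero]
    have e5 : R α - C α + (R β - C β) = 0 := by
      have := hsum (fun _ => 1)
      simp only [one_mul] at this
      rw [← this, e3]
    have a1 := h1 α
    have a2 := h2 α
    rw [if_pos rfl] at a1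
    rw [if_neg hαβ] at a2
    have hd : R α - C α = 0 ∨ R α - C α = -1 := by omega
    have e6 : ∀ l, α l * (R α - C α) + β l * (R β - C β) = 2 := by
      intro l
      rw [← e4 l]
      exact (hsum (fun ω => ω l)).symm
    have hd1 : R α - C α = -1 := by
      rcases hd with hd | hd
      · exfalso
        have := e6 0
        rw [hd, show R β - C β = 0 by omega] at this
        simp at this
      · exact hd
    have hd2 : R β - C β = 1 := by omega
    have hβα : β = (fun l => α l + 2) := by
      funext l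
      have := e6 l
      rw [hd1, hd2] at this
      omega
    refine ⟨hβα, fun ω => ?_⟩
    rw [← hβα]
    by_cases ha : ω = α
    · rw [ha, if_neg hαβ, if_pos rfl]
      omega
    · by_cases hb : ω = β
      · rw [hb, if_pos rfl, if_neg (fun h => hαβ h.symm)]
        omega
      · rw [if_neg ha, if_neg hb]
        have := h5 ω ha hb
        omega

private theorem Bal_Fv_zero {n : ℕ} : Fv (0 : Matrix (Fin n) (Fin n) ℂ) = 0 := by
  unfold Fv
  rw [Matrix.transpose_zero, add_zero, mul_zero, Matrix.trace_zero]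

theorem bal (hG : Zg (2 * k + 1) m c L M w w')
    (hex : ∃ X : Matrix (Fin (2 * k + 1)) (Fin (2 * k + 1)) ℂ, Fv X ≠ 0)
    (hadj : L.adjugate ≠ 0) :
    ∃ α : Fin (2 * k + 1) → ℤ, ∀ ω : Fin (2 * k + 1) → ℤ,
      (Finset.univ.filter fun a => w a = ω).card + (if ω = fun l => α l + 2 then 1 else 0) =
      (Finset.univ.filter fun b => w' b = ω).card + (if ω = α then 1 else 0) := by
  have hdet : L.det = 0 := by
    have h := hG.det 0
    rwa [map_zero, add_zero, Bal_Fv_zero, mul_zero] at h
  obtain ⟨α, hα⟩ := ker_ine hdet hadj hG.gL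
  obtain ⟨β, hβ⟩ := ker_ine' hdet hadj hG.gL
  refine ⟨α, ?_⟩
  set S : Finset (Fin (2 * k + 1) → ℤ) :=
    (Finset.univ.image w ∪ Finset.univ.image w') ∪ {α, β} with hS
  have hw : ∀ a, w a ∈ S := fun a => by
    rw [hS]
    exact Finset.mem_union_left _ (Finset.mem_union_left _
      (Finset.mem_image_of_mem _ (Finset.mem_univ _)))
  have hw' : ∀ a, w' a ∈ S := fun a => by
    rw [hS]
    exact Finset.mem_union_left _ (Finset.mem_union_right _
      (Finset.mem_image_of_mem _ (Finset.mem_univ _)))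
  have hαS : α ∈ S := by
    rw [hS]
    exact Finset.mem_union_right _ (by simp)
  have hβS : β ∈ S := by
    rw [hS]
    exact Finset.mem_union_right _ (by simp)
  obtain ⟨-, key⟩ := Bal_ar
    (C := fun ω => ((Finset.univ.filter fun a => w a = ω).card : ℤ))
    (R := fun ω => ((Finset.univ.filter fun b => w' b = ω).card : ℤ)) S hαS hβS
    (fun ω => by
      have := hα ω
      split_ifs with h
      · rw [if_pos h] at this
        omega
      · rw [if_neg h] at this
        omega)
    (fun ω => by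
      have := hβ ω
      split_ifs with h
      · rw [if_pos h] at this
        omega
      · rw [if_neg h] at this
        omega)
    (by rw [Bal_cnt w S hw, Bal_cnt w' S hw'])
    (fun l => by
      rw [Bal_wt w S hw (fun ω => ω l), Bal_wt w' S hw' (fun ω => ω l)]
      exact wsum hG hex l)
  intro ω
  have := key ω
  split_ifs at this ⊢ <;> omega

end PadDet.Eq
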