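import Pool.Agent.H.MP_d7db32_ag.Eq.T.CcnA

/-!
# MP_d7db32_ag, Eq/T/Ccn: counting

`ccn_cnt`: `k ! = ∑ a, card {π | Φ π = a}`. If the fibre of `a` contains `π₀` let `Z = {i | u a i = 0}`, `Z' = {i | u' a i = 0}`; every `π` in the fibre satisfies `π i ∈ Z' ↔ i ∈ Z`; `j = k - card Z` is the number of the `i` with `f π₀ i ≠ 0`,
so `2 q - 1 ≤ ∑ f ≤ 2 j` and `j ≤ ∑ f ≤ 2 q` (`q = k / 3`), so `q ≤ j ≤ 2 q ≤ k - q`, and the fibre has at most `k ! / choose k j ≤ k ! / choose k q` elements
(`Nat.choose_mul_factorial_mul_factorial`), that is `choose k q * card (fibre) ≤ k !`. Sum over `a`.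
-/

set_option autoImplicit false

namespace PadDet.Eq

open Nat

theorem ccn_cnt {k m : ℕ} (Φ : Equiv.Perm (Fin k) → Fin m) (u u' : Fin m → Fin k → ℤ)
    (f : Equiv.Perm (Fin k) → Fin k → ℕ) (h1 : ∀ π i, u (Φ π) i = f π i)
    (h2 : ∀ π i, u' (Φ π) (π i) = f π i) (h3 : ∀ π i, f π i ≤ 2)
    (h4 : ∀ π, 2 * (k / 3) ≤ ∑ i, f π i + 1) (h5 : ∀ π, ∑ i, f π i ≤ 2 * (k / 3)) :
    Nat.choose k (k / 3) ≤ m := by
  classical
  set q := k / 3 with hq
  have hfib : ∀ a : Fin m, Nat.choose k q *
      (Finset.univ.filter fun π : Equiv.Perm (Fin k) => Φ π = a).card ≤ k ! := by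
    intro a
    rcases (Finset.univ.filter fun π : Equiv.Perm (Fin k) => Φ π = a).eq_empty_or_nonempty
      with h | ⟨π₀, hπ₀⟩
    · rw [h, Finset.card_empty, Nat.mul_zero]
      exact Nat.zero_le _
    rw [Finset.mem_filter] at hπ₀
    have h0 := hπ₀.2
    set Z : Finset (Fin k) := Finset.univ.filter fun i => u a i = 0 with hZ
    set Z' : Finset (Fin k) := Finset.univ.filter fun i => u' a i = 0 with hZ'
    have hsub : (Finset.univ.filter fun π : Equiv.Perm (Fin k) => Φ π = a).card ≤
        Z.card ! * (k - Z.card)! := by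
      refine (Finset.card_le_card ?_).trans (ccn_prm_le Z Z')
      intro π hπ
      rw [Finset.mem_filter] at hπ ⊢
      refine ⟨Finset.mem_univ _, fun i => ?_⟩
      rw [hZ, hZ', Finset.mem_filter, Finset.mem_filter]
      have e1 := h1 π i
      have e2 := h2 π i
      rw [hπ.2] at e1 e2
      rw [e1, e2]
      simp
    have hfz : ∀ i, f π₀ i = 0 ↔ i ∈ Z := by
      intro i
      rw [hZ, Finset.mem_filter]
      have e1 := h1 π₀ i
      rw [h0] at e1
      rw [e1]
      simp
    have hZk : Z.card ≤ k := by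
      have := Finset.card_le_univ Z
      rwa [Fintype.card_fin] at this
    have hc : Zᶜ.card = k - Z.card := by
      rw [Finset.card_compl, Fintype.card_fin]
    have hs : ∑ i, f π₀ i = ∑ i ∈ Zᶜ, f π₀ i := by
      symm
      apply Finset.sum_subset (Finset.subset_univ _)
      intro i _ hi
      rw [Finset.mem_compl, not_not] at hi
      exact (hfz i).2 hi
    have hs1 : ∑ i ∈ Zᶜ, f π₀ i ≤ Zᶜ.card * 2 := by
      refine Finset.sum_le_card_nsmul Zᶜ _ 2 fun i _ => h3 π₀ i
    have hs2 : Zᶜ.card * 1 ≤ ∑ i ∈ Zᶜ, f π₀ i := by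
      refine Finset.card_nsmul_le_sum Zᶜ _ 1 fun i hi => ?_
      rw [Finset.mem_compl] at hi
      exact Nat.one_le_iff_ne_zero.2 fun h => hi ((hfz i).1 h)
    have h4' := h4 π₀
    have h5' := h5 π₀
    rw [hs] at h4' h5'
    set j := k - Z.card with hj
    rw [hc] at hs1 hs2
    have hq3 : 3 * q ≤ k := by
      rw [hq]; omega
    have hqj : q ≤ j := by omega
    have hjq : j + q ≤ k := by omega
    have hZj : Z.card = k - j := by omega
    calc Nat.choose k q * (Finset.univ.filter fun π : Equiv.Perm (Fin k) => Φ π = a).card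
        ≤ Nat.choose k j * (Z.card ! * j !) := Nat.mul_le_mul (ccn_chs_le hqj hjq) hsub
      _ = Nat.choose k j * j ! * (k - j)! := by rw [hZj]; ring
      _ = k ! := Nat.choose_mul_factorial_mul_factorial (by omega)
  have hsum : k ! = ∑ a : Fin m,
      (Finset.univ.filter fun π : Equiv.Perm (Fin k) => Φ π = a).card := by
    rw [← Finset.card_eq_sum_card_fiberwise (s := Finset.univ) (t := Finset.univ)
      (fun _ _ => Finset.mem_coe.2 (Finset.mem_univ _)), Finset.card_univ, Fintype.card_perm,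
      Fintype.card_fin]
  have hmain : Nat.choose k q * k ! ≤ m * k ! := by
    calc Nat.choose k q * k ! = ∑ a : Fin m, Nat.choose k q *
          (Finset.univ.filter fun π : Equiv.Perm (Fin k) => Φ π = a).card := by
          rw [← Finset.mul_sum, ← hsum]
      _ ≤ ∑ _a : Fin m, k ! := Finset.sum_le_sum fun a _ => hfib a
      _ = m * k ! := by rw [Finset.sum_const, Finset.card_univ, Fintype.card_fin, smul_eq_mul]
  exact Nat.le_of_mul_le_mul_right hmain (Nat.factorial_pos k)

end PadDet.Eq
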