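import Pool.Agent.H.MP_d7db32_ag.Eq.T.Mcn
import Pool.Agent.H.MP_d7db32_ag.Eq.T.Act

/-!
# MP_d7db32_ag, Eq/T/Chn: the chain of weights of a matching

`det (L + M (mcM π)) = c * Fv ≠ 0` (`mc_ne`), so there is a permutation `τ` of `Fin m` with all entries `(τ a, a)` not zero (`Matrix.det_apply`, a nonzero term). A column `a` is active if `w' (τ a) ≠ w a`.
(1) There is an active column of weight `α`: `act0` (`α ≠ α + 2`). Weight: `f = 0`, `ε = 0`.
(2) Let `a` be active of weight `(f, ε)` and `(f', ε')` the weight of the row `τ a` (`mc_entry`). If `w' (τ a) ≠ α + 2` then there is an active column of weight `w' (τ a)`: `act1`.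
(3) Every active column of weight `(f, ε)` has `f i ≤ 2`, `ε ≤ 1`: strong induction on the distance of the sum of the coordinates of `w a` from a bound: the row `τ a` has weight `(f', ε') ≥ (f, ε)`; it is `α + 2`, then
`f' = 2`, `ε' = 1`; or there is an active column of this weight, which has a larger sum.
(4) For `s ≤ 2 k` there is an active column of weight `(f, ε)` with `∑ f + ε = s`: induction; for the step: `∑ f' + ε' = s + 1 ≤ 2 k`, so the weight is not `α + 2` (`∑ f' + ε' = 2 k + 1`).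
-/

set_option autoImplicit false

namespace PadDet.Eq

open Matrix

private theorem Chn_le {k : ℕ} {f f' : Fin k → ℕ} {ε ε' : ℕ} (h : Stp f ε f' ε') :
    (∀ i, f i ≤ f' i) ∧ ε ≤ ε' ∧ ∑ i, f' i + ε' = ∑ i, f i + ε + 1 := by
  classical
  cases h with
  | edge i =>
    refine ⟨fun j => ?_, le_rfl, ?_⟩
    · by_cases hj : j = i
      · subst hj
        rw [Function.update_self]
        exact Nat.le_succ _
      · rw [Function.update_of_ne hj]
    · rw [Finset.sum_update_of_mem (Finset.mem_univ i),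
        ← Finset.add_sum_erase Finset.univ f (Finset.mem_univ i), ← Finset.sdiff_singleton_eq_erase]
      ring
  | loop => exact ⟨fun j => le_rfl, Nat.le_succ _, by ring⟩

private theorem Chn_unique {k : ℕ} {π : Equiv.Perm (Fin k)} {α ω : Fin (2 * k + 1) → ℤ}
    {f f' : Fin k → ℕ} {ε ε' : ℕ} (h : Wgt π α ω f ε) (h' : Wgt π α ω f' ε') :
    (∀ i, f i = f' i) ∧ ε = ε' := by
  refine ⟨fun i => ?_, ?_⟩
  · have h1 := h.l i
    have h2 := h'.l i
    omega
  · have h1 := h.e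
    have h2 := h'.e
    omega

/-- A bounded measure. -/
private def Chn_G {k : ℕ} (α ω : Fin (2 * k + 1) → ℤ) : ℤ :=
  ∑ i : Fin k, (ω (lf i) - α (lf i)) + (ω (ls k) - α (ls k))

private theorem Chn_G_eq {k : ℕ} {π : Equiv.Perm (Fin k)} {α ω : Fin (2 * k + 1) → ℤ}
    {f : Fin k → ℕ} {ε : ℕ} (h : Wgt π α ω f ε) :
    Chn_G α ω = ((∑ i, f i + ε : ℕ) : ℤ) + ε := by
  unfold Chn_G
  have h1 : ∑ i : Fin k, (ω (lf i) - α (lf i)) = ((∑ i, f i : ℕ) : ℤ) := by
    rw [Nat.cast_sum]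
    refine Finset.sum_congr rfl fun i _ => ?_
    rw [h.l i]
    ring
  rw [h1, h.e]
  push_cast
  ring

theorem chn {k m : ℕ} {c : ℂ} {L : Matrix (Fin m) (Fin m) ℂ}
    {M : Matrix (Fin (2 * k + 1)) (Fin (2 * k + 1)) ℂ →ₗ[ℂ] Matrix (Fin m) (Fin m) ℂ}
    {w w' : Fin m → Fin (2 * k + 1) → ℤ} (hG : Zg (2 * k + 1) m c L M w w')
    {α : Fin (2 * k + 1) → ℤ} (hα : ∀ ω : Fin (2 * k + 1) → ℤ,
      (Finset.univ.filter fun a => w a = ω).card + (if ω = fun l => α l + 2 then 1 else 0) =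
      (Finset.univ.filter fun b => w' b = ω).card + (if ω = α then 1 else 0))
    (π : Equiv.Perm (Fin k)) {s : ℕ} (hs : s ≤ 2 * k) :
    ∃ (a : Fin m) (f : Fin k → ℕ) (ε : ℕ), Wgt π α (w a) f ε ∧ (∀ i, f i ≤ 2) ∧ ε ≤ 1 ∧
      ∑ i, f i + ε = s := by
  classical
  obtain ⟨β, hβ⟩ : ∃ β : Fin (2 * k + 1) → ℤ, β = fun l => α l + 2 := ⟨_, rfl⟩
  have hβw : Wgt π α β (fun _ => 2) 1 := by
    rw [hβ]
    exact ⟨fun i => by push_cast; ring, fun i => by push_cast; ring, by push_cast; ring⟩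
  have hαβ : α ≠ β := by
    intro h
    have h1 := congrFun h (ls k)
    rw [hβ] at h1
    have h2 : α (ls k) = α (ls k) + 2 := h1
    omega
  rw [← hβ] at hα
  -- the permutation
  have hdet : (L + M (mcM π)).det ≠ 0 := by
    rw [hG.det]
    exact mul_ne_zero hG.c0 (mc_ne π)
  obtain ⟨τ, hτ⟩ : ∃ τ : Equiv.Perm (Fin m), ∀ a, (L + M (mcM π)) (τ a) a ≠ 0 := by
    by_contra hcon
    push Not at hcon
    apply hdet
    rw [Matrix.det_apply]
    refine Finset.sum_eq_zero fun τ _ => ?_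
    obtain ⟨a, ha⟩ := hcon τ
    have h0 : ∏ i, (L + M (mcM π)) (τ i) i = 0 :=
      Finset.prod_eq_zero (f := fun i => (L + M (mcM π)) (τ i) i) (Finset.mem_univ a) ha
    rw [h0, smul_zero]
  -- a step
  have hstep : ∀ (a : Fin m) (f : Fin k → ℕ) (ε : ℕ), w' (τ a) ≠ w a → Wgt π α (w a) f ε →
      ∃ f' ε', Stp f ε f' ε' ∧ Wgt π α (w' (τ a)) f' ε' ∧
        (w' (τ a) ≠ β → ∃ a', w a' = w' (τ a) ∧ w' (τ a') ≠ w a') := by
    intro a f ε ha hw
    rcases mc_entry hG π (hτ a) with h1 | ⟨-, h1⟩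
    · exact absurd h1 ha
    · obtain ⟨f', ε', h2, h3⟩ := h1 α f ε hw
      exact ⟨f', ε', h2, h3, fun h4 => act1 hα τ ha h4⟩
  -- the bound
  obtain ⟨B, hB⟩ : ∃ B : ℤ, ∀ a, Chn_G α (w a) ≤ B := by
    refine ⟨∑ a, |Chn_G α (w a)|, fun a => (le_abs_self _).trans ?_⟩
    exact Finset.single_le_sum (f := fun a => |Chn_G α (w a)|) (fun _ _ => abs_nonneg _)
      (Finset.mem_univ a)
  have hbd : ∀ (N : ℕ) (a : Fin m) (f : Fin k → ℕ) (ε : ℕ), w' (τ a) ≠ w a →
      Wgt π α (w a) f ε → B - Chn_G α (w a) < N → (∀ i, f i ≤ 2) ∧ ε ≤ 1 := by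
    intro N
    induction N with
    | zero =>
      intro a f ε _ _ h
      have h1 := hB a
      rw [Nat.cast_zero] at h
      omega
    | succ N ih =>
      intro a f ε ha hw h
      obtain ⟨f', ε', h1, h2, h3⟩ := hstep a f ε ha hw
      obtain ⟨h4, h5, h6⟩ := Chn_le h1
      have hmain : (∀ i, f' i ≤ 2) ∧ ε' ≤ 1 := by
        by_cases hb : w' (τ a) = β
        · rw [hb] at h2
          obtain ⟨h7, h8⟩ := Chn_unique h2 hβw
          exact ⟨fun i => (h7 i).le, h8.le⟩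
        · obtain ⟨a', ha', ha''⟩ := h3 hb
          rw [← ha'] at h2
          refine ih a' f' ε' ha'' h2 ?_
          have h7 := Chn_G_eq hw
          have h8 := Chn_G_eq h2
          rw [h8, h6]
          rw [h7] at h
          push_cast at h ⊢
          omega
      exact ⟨fun i => (h4 i).trans (hmain.1 i), h5.trans hmain.2⟩
  have hchain : ∀ s : ℕ, s ≤ 2 * k → ∃ (a : Fin m) (f : Fin k → ℕ) (ε : ℕ),
      w' (τ a) ≠ w a ∧ Wgt π α (w a) f ε ∧ ∑ i, f i + ε = s := by
    intro s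
    induction s with
    | zero =>
      intro _
      obtain ⟨a, ha, ha'⟩ := act0 hαβ hα τ
      refine ⟨a, fun _ => 0, 0, ha', ?_, by simp⟩
      rw [ha]
      exact ⟨fun i => by simp, fun i => by simp, by simp⟩
    | succ s ih =>
      intro hs'
      obtain ⟨a, f, ε, ha, hw, hsum⟩ := ih (by omega)
      obtain ⟨f', ε', h1, h2, h3⟩ := hstep a f ε ha hw
      obtain ⟨h4, h5, h6⟩ := Chn_le h1
      have hb : w' (τ a) ≠ β := by
        intro hb
        rw [hb] at h2
        obtain ⟨h7, h8⟩ := Chn_unique h2 hβw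
        rw [Finset.sum_congr rfl fun i _ => h7 i, h8, Finset.sum_const, Finset.card_univ,
          Fintype.card_fin, smul_eq_mul] at h6
        omega
      obtain ⟨a', ha', ha''⟩ := h3 hb
      rw [← ha'] at h2
      exact ⟨a', f', ε', ha'', h2, by rw [h6, hsum]⟩
  obtain ⟨a, f, ε, ha, hw, hsum⟩ := hchain s hs
  obtain ⟨h1, h2⟩ := hbd ((B - Chn_G α (w a)).toNat + 1) a f ε ha hw (by
    have h1 := hB a
    push_cast
    omega)
  exact ⟨a, f, ε, hw, h1, h2, hsum⟩

end PadDet.Eq
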