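import Pool.Agent.H.MP_d7db32_ag.Eq.T.Grt
import Pool.Agent.H.MP_d7db32_ag.Eq.T.Chn
import Pool.Agent.H.MP_d7db32_ag.Eq.T.Bal
import Pool.Agent.H.MP_d7db32_ag.Eq.T.Ccn
import Pool.Agent.H.MP_d7db32_ag.Eq.R.Reg
import Pool.Agent.H.MP_d7db32_ag.Eq.F.Pwg
import Pool.Agent.H.MP_d7db32_ag.Eq.F.Sqr
import Pool.Agent.H.MP_d7db32_ag.Eq.Low

/-!
# MP_d7db32_ag, Eq/T/AsT: an exponential bound for one generic element of the torus
-/

set_option autoImplicit false

namespace PadDet.Eq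

open Matrix

theorem gen_sq {n : ℕ} {t : Fin n → ℂ} (h : Gen t) : Gen fun i => t i ^ 2 := by
  refine ⟨fun i => pow_ne_zero 2 (h.1 i), fun w hw => ?_⟩
  have h1 := h.2 (fun i => 2 * w i) (by
    rw [← hw]
    refine Finset.prod_congr rfl fun i _ => ?_
    simp only
    rw [_root_.zpow_mul, zpow_ofNat])
  funext i
  have h2 := congrFun h1 i
  simp only [Pi.zero_apply] at h2 ⊢
  omega

theorem low_tor (k m : ℕ) {c : ℂ} (hc : c ≠ 0) (L : Matrix (Fin m) (Fin m) ℂ)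
    (M : Matrix (Fin (2 * k + 1)) (Fin (2 * k + 1)) ℂ →ₗ[ℂ] Matrix (Fin m) (Fin m) ℂ)
    (hdet : ∀ X, (L + M X).det = c * Fv X) {t : Fin (2 * k + 1) → ℂ} (ht : Gen t)
    (hT : Eqt L M (tor t)) : Nat.choose k (k / 3) ≤ m := by
  have hT2 := eqt_sq hT
  have e1 : (fun X : Matrix (Fin (2 * k + 1)) (Fin (2 * k + 1)) ℂ => tor t (tor t X)) =
      tor fun i => t i ^ 2 := by
    funext X
    ext i j
    unfold tor
    simp only [Matrix.of_apply]
    ring
  rw [e1] at hT2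
  have ht2 := gen_sq ht
  obtain ⟨m', hm', c', L', M', h', hP⟩ := exists_primg (c := c) (L := L) (M := M)
    (G := {tor fun i => t i ^ 2}) (by
      rintro g rfl X hX
      rw [Fv_tor ht2.1]
      exact mul_ne_zero (pow_ne_zero _ (Finset.prod_ne_zero_iff.2 fun i _ => ht2.1 i)) hX)
    ⟨hc, hdet, by
      rintro g rfl
      exact hT2⟩
  refine le_trans ?_ hm'
  obtain ⟨c₁, L₁, M₁, w, w', hG⟩ := grt h'.c0 h'.det ht2 (h'.eqv _ rfl) hP
  obtain ⟨α, hα⟩ := bal hG (exists_ne k) (reg hG.c0 L₁ M₁ hG.det)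
  choose Φ f ε hW hf hε hs using fun π : Equiv.Perm (Fin k) =>
    chn hG hα π (s := 2 * (k / 3)) (by omega)
  refine ccn_cnt Φ (fun a i => w a (lf i) - α (lf i)) (fun a i => w a (rt i) - α (rt i)) f
    (fun π i => ?_) (fun π i => ?_) hf (fun π => ?_) (fun π => ?_)
  · rw [(hW π).l i]
    ring
  · rw [(hW π).r i]
    ring
  · have h1 := hs π
    have h2 := hε π
    omega
  · have h1 := hs π
    omega

end PadDet.Eq
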