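import Mathlib

/-!
# MP_d7db32_ag, Eq/T/CcnA: counting permutations

`ccn_chs_le`: `Nat.choose k q ≤ Nat.choose k j` for `q ≤ j ≤ k - q` (`Nat.choose_le_succ_of_lt_half_left`, symmetry `Nat.choose_symm`; maybe `Nat.choose_mono`-like lemmas exist).
`ccn_prm_le`: the permutations which map `Z` onto `Z'`: the set is empty unless the sizes agree; then there is a permutation `ρ` with `ρ Z = Z'`, and `π ↦ ρ⁻¹ π` maps the set injectively to the permutations `σ` with `σ i ∈ Z ↔ i ∈ Z`, which are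
`Perm Z × Perm Zᶜ` (`Equiv.Perm.subtypeCongr`, `Equiv.Perm.subtypeEquivSubtypePerm`, see how `cnt_perm` in Eq/Cnt and `Mathlib` `Fintype.card_perm` do it); another way: `π ↦ (the restriction Z → Z', the restriction Zᶜ → Z'ᶜ)`
is injective to `(Z ≃ Z') × (Zᶜ ≃ Z'ᶜ)` (`Fintype.card_equiv`).
-/

set_option autoImplicit false

namespace PadDet.Eq

open Nat

private theorem ccnA_half {k q j : ℕ} (h1 : q ≤ j) (h2 : j ≤ k / 2) :
    Nat.choose k q ≤ Nat.choose k j := by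
  induction j, h1 using Nat.le_induction with
  | base => exact le_rfl
  | succ i hi ih => exact (ih (by omega)).trans (Nat.choose_le_succ_of_lt_half_left (by omega))

theorem ccn_chs_le {k q j : ℕ} (h1 : q ≤ j) (h2 : j + q ≤ k) : Nat.choose k q ≤ Nat.choose k j := by
  rcases le_or_gt j (k / 2) with h | h
  · exact ccnA_half h1 h
  · rw [← Nat.choose_symm (show j ≤ k by omega)]
    exact ccnA_half (by omega) (by omega)

theorem ccn_prm_le {k : ℕ} (Z Z' : Finset (Fin k)) :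
    (Finset.univ.filter fun π : Equiv.Perm (Fin k) => ∀ i, π i ∈ Z' ↔ i ∈ Z).card ≤
      Z.card ! * (k - Z.card)! := by
  classical
  rcases (Finset.univ.filter fun π : Equiv.Perm (Fin k) => ∀ i, π i ∈ Z' ↔ i ∈ Z).eq_empty_or_nonempty
    with h | ⟨ρ, hρ⟩
  · rw [h, Finset.card_empty]
    exact Nat.zero_le _
  rw [Finset.mem_filter] at hρ
  have key : ∀ π : Equiv.Perm (Fin k), (∀ i, π i ∈ Z' ↔ i ∈ Z) →
      ∀ i, (ρ⁻¹ * π) i ∈ Z ↔ i ∈ Z := by
    intro π hπ i
    rw [← hρ.2 ((ρ⁻¹ * π) i), ← hπ i, ← Equiv.Perm.mul_apply, mul_inv_cancel_left]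
  have e1 : Fintype.card (Equiv.Perm {x : Fin k // x ∈ Z} × Equiv.Perm {x : Fin k // ¬ x ∈ Z}) =
      Z.card ! * (k - Z.card)! := by
    rw [Fintype.card_prod, Fintype.card_perm, Fintype.card_perm, Fintype.card_subtype_compl,
      Fintype.card_fin, Fintype.card_coe]
  rw [← e1, ← Finset.card_univ]
  let F : {σ : Equiv.Perm (Fin k) // ∀ i, σ i ∈ Z ↔ i ∈ Z} →
      Equiv.Perm {x : Fin k // x ∈ Z} × Equiv.Perm {x : Fin k // ¬ x ∈ Z} := fun σ =>
    (σ.1.subtypePerm σ.2, σ.1.subtypePerm fun i => not_congr (σ.2 i))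
  have hF : Function.Injective F := by
    intro σ τ h
    have h1 := (Prod.mk.injEq _ _ _ _ ▸ h :
      σ.1.subtypePerm σ.2 = τ.1.subtypePerm τ.2 ∧
        (σ.1.subtypePerm fun i => not_congr (σ.2 i)) = τ.1.subtypePerm fun i => not_congr (τ.2 i))
    apply Subtype.ext
    apply Equiv.ext
    intro i
    by_cases hi : i ∈ Z
    · exact congrArg Subtype.val (Equiv.ext_iff.1 h1.1 ⟨i, hi⟩)
    · exact congrArg Subtype.val (Equiv.ext_iff.1 h1.2 ⟨i, hi⟩)
  let G : Equiv.Perm (Fin k) → Equiv.Perm {x : Fin k // x ∈ Z} × Equiv.Perm {x : Fin k // ¬ x ∈ Z} :=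
    fun π => if h : ∀ i, π i ∈ Z' ↔ i ∈ Z then F ⟨ρ⁻¹ * π, key π h⟩ else 1
  refine Finset.card_le_card_of_injOn G (fun _ _ => Finset.mem_coe.2 (Finset.mem_univ _)) ?_
  intro π hπ τ hτ h
  rw [Finset.mem_coe, Finset.mem_filter] at hπ hτ
  simp only [G, dif_pos hπ.2, dif_pos hτ.2] at h
  have h2 := congrArg Subtype.val (hF h)
  exact mul_left_cancel h2

end PadDet.Eq
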