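import Pool.Agent.H.MP_d7db32_ag.Eq.R.Reg

/-!
# MP_d7db32_ag, Eq/T/Ker: the kernel of a graded matrix with nonzero adjugate

`rank L + 1 = m` (`rank_of_adj` in R/Reg), so `ker L` has dimension one; let `x ≠ 0` be in it, `x a₀ ≠ 0`, `α = w a₀`. For every `ω` the block `B` of `L` with the columns `a`, `w a = ω`, and the rows `b`, `w' b = ω`
(`Matrix.submatrix` with subtypes): rank plus nullity, `card (columns) ≤ card (rows) + finrank (ker B)`. Extension by zero maps `ker B` injectively to `ker L` (`L b a ≠ 0` and `w a = ω` give `w' b = ω`), so `finrank (ker B) ≤ 1`, and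
if `ker B ≠ 0` then its extension is a multiple of `x` with factor not zero, so its entry at `a₀` is not zero and `w a₀ = ω`, `ω = α`.
-/

set_option autoImplicit false

namespace PadDet.Eq

open Matrix

theorem ker_ine {m : ℕ} {W : Type} [DecidableEq W] {L : Matrix (Fin m) (Fin m) ℂ} (h0 : L.det = 0)
    (hadj : L.adjugate ≠ 0) {w w' : Fin m → W} (hL : ∀ b a, L b a ≠ 0 → w' b = w a) :
    ∃ α : W, ∀ ω : W, (Finset.univ.filter fun a => w a = ω).card ≤
      (Finset.univ.filter fun b => w' b = ω).card + (if ω = α then 1 else 0) := by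
  classical
  have hr := rank_of_adj hadj h0
  have hrn : L.rank + Module.finrank ℂ (LinearMap.ker L.mulVecLin) = m := by
    have h1 := LinearMap.finrank_range_add_finrank_ker L.mulVecLin
    rw [Module.finrank_fin_fun] at h1
    exact h1
  have hk : Module.finrank ℂ (LinearMap.ker L.mulVecLin) = 1 := by omega
  obtain ⟨x, hx0, hall⟩ := finrank_eq_one_iff'.1 hk
  have hx0' : (x : Fin m → ℂ) ≠ 0 := fun h => hx0 (Subtype.ext h)
  obtain ⟨a₀, ha₀⟩ := Function.ne_iff.1 hx0'
  have key : ∀ v : Fin m → ℂ, L *ᵥ v = 0 → v a₀ = 0 → v = 0 := by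
    intro v hv hva
    obtain ⟨c, hc⟩ := hall ⟨v, by rw [LinearMap.mem_ker, Matrix.mulVecLin_apply]; exact hv⟩
    have hc' : c • (x : Fin m → ℂ) = v := congrArg Subtype.val hc
    have h1 : c * (x : Fin m → ℂ) a₀ = 0 := by
      rw [← hc'] at hva
      exact hva
    have h2 : c = 0 := (mul_eq_zero.1 h1).resolve_right ha₀
    rw [← hc', h2, zero_smul]
  refine ⟨w a₀, fun ω => ?_⟩
  obtain ⟨B, hB⟩ : ∃ B : Matrix {b // w' b = ω} {a // w a = ω} ℂ,
    B = L.submatrix Subtype.val Subtype.val := ⟨_, rfl⟩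
  obtain ⟨E, hE⟩ : ∃ E : ({a // w a = ω} → ℂ) → Fin m → ℂ,
    E = fun y a => if h : w a = ω then y ⟨a, h⟩ else 0 := ⟨_, rfl⟩
  have hE1 : ∀ y (a : {a // w a = ω}), E y a.1 = y a := fun y a => by
    rw [hE]
    exact dif_pos a.2
  have hE2 : ∀ y a, w a ≠ ω → E y a = 0 := fun y a h => by
    rw [hE]
    exact dif_neg h
  have hker : ∀ y, B *ᵥ y = 0 → L *ᵥ E y = 0 := by
    intro y hy
    funext b
    have h1 : (L *ᵥ E y) b = ∑ a : {a // w a = ω}, L b a.1 * y a := by
      show ∑ a, L b a * E y a = _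
      have h2 : ∑ a ∈ Finset.univ.filter (fun a => w a = ω), L b a * E y a =
          ∑ a, L b a * E y a := by
        refine Finset.sum_filter_of_ne fun a _ h3 => ?_
        by_contra h4
        exact h3 (by rw [hE2 y a h4, mul_zero])
      rw [← h2, Finset.sum_subtype (p := fun a => w a = ω) _ (by simp)]
      refine Finset.sum_congr rfl fun a _ => ?_
      rw [hE1]
    rw [h1]
    by_cases hb : w' b = ω
    · have h3 := congrFun hy ⟨b, hb⟩
      rw [hB] at h3
      exact h3
    · refine Finset.sum_eq_zero fun a _ => ?_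
      have h4 : L b a.1 = 0 := by
        by_contra h5
        exact hb ((hL b a.1 h5).trans a.2)
      rw [h4, zero_mul]
  have hzero : ∀ y, B *ᵥ y = 0 → E y a₀ = 0 → y = 0 := by
    intro y hy hya
    have h1 := key _ (hker y hy) hya
    funext a
    rw [← hE1 y a, h1]
    rfl
  rw [← Fintype.card_subtype, ← Fintype.card_subtype]
  split_ifs with hω
  · let T : ({a // w a = ω} → ℂ) →ₗ[ℂ] ({b // w' b = ω} → ℂ) × ℂ :=
      B.mulVecLin.prod (LinearMap.proj ⟨a₀, hω.symm⟩)
    have hT : Function.Injective T := by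
      rw [← LinearMap.ker_eq_bot, LinearMap.ker_eq_bot']
      intro y hy
      have h1 : B *ᵥ y = 0 := congrArg Prod.fst hy
      have h2 : y ⟨a₀, hω.symm⟩ = 0 := congrArg Prod.snd hy
      refine hzero y h1 ?_
      rw [hE1 y ⟨a₀, hω.symm⟩, h2]
    have h3 := LinearMap.finrank_le_finrank_of_injective hT
    rw [Module.finrank_prod, Module.finrank_fintype_fun_eq_card,
      Module.finrank_fintype_fun_eq_card, Module.finrank_self] at h3
    exact h3
  · have hT : Function.Injective B.mulVecLin := by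
      rw [← LinearMap.ker_eq_bot, LinearMap.ker_eq_bot']
      intro y hy
      exact hzero y hy (hE2 y a₀ fun h => hω h.symm)
    have h3 := LinearMap.finrank_le_finrank_of_injective hT
    rw [Module.finrank_fintype_fun_eq_card, Module.finrank_fintype_fun_eq_card] at h3
    exact h3

/-- The same for the rows. -/
theorem ker_ine' {m : ℕ} {W : Type} [DecidableEq W] {L : Matrix (Fin m) (Fin m) ℂ}
    (h0 : L.det = 0) (hadj : L.adjugate ≠ 0) {w w' : Fin m → W}
    (hL : ∀ b a, L b a ≠ 0 → w' b = w a) :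
    ∃ β : W, ∀ ω : W, (Finset.univ.filter fun b => w' b = ω).card ≤
      (Finset.univ.filter fun a => w a = ω).card + (if ω = β then 1 else 0) := by
  refine ker_ine (L := Lᵀ) (by rw [Matrix.det_transpose]; exact h0) ?_ (w := w') (w' := w) ?_
  · rw [← Matrix.adjugate_transpose]
    intro h
    apply hadj
    have h1 := congrArg Matrix.transpose h
    rwa [Matrix.transpose_transpose, Matrix.transpose_zero] at h1
  · intro b a h
    exact (hL a b h).symm

end PadDet.Eq
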