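import Pool.Agent.H.MP_d7db32_ag.Eq.L.Bas
import Pool.Agent.H.MP_d7db32_ag.Eq.CaseD

/-!
# MP_d7db32_ag, Eq/T/Mch: matrices of a matching and a loop

The vertices are `lf i = i`, `rt i = k + i` (`i < k`) and `ls = 2 k`. `mcM π = ∑ i (E_{lf i, rt (π i)} - E_{rt (π i), lf i}) + E_{ls, ls}`.
`mc_entry`: an entry of `L + M (mcM π)` which is not zero comes from `L` or from `M E_{ls,ls}` or from `M E_{lf i, rt (π i)}` or `M E_{rt (π i), lf i}` (linearity), apply `gL`, `gE`.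
-/

set_option autoImplicit false

namespace PadDet.Eq

open Matrix

/-- Left vertex. -/
def lf {k : ℕ} (i : Fin k) : Fin (2 * k + 1) := ⟨i.val, by omega⟩

/-- Right vertex. -/
def rt {k : ℕ} (i : Fin k) : Fin (2 * k + 1) := ⟨k + i.val, by omega⟩

/-- Last vertex. -/
def ls (k : ℕ) : Fin (2 * k + 1) := ⟨2 * k, by omega⟩

/-- The matching `π` and the loop at the last vertex. -/
noncomputable def mcM {k : ℕ} (π : Equiv.Perm (Fin k)) :
    Matrix (Fin (2 * k + 1)) (Fin (2 * k + 1)) ℂ :=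
  ∑ i, (Matrix.single (lf i) (rt (π i)) 1 - Matrix.single (rt (π i)) (lf i) 1) +
    Matrix.single (ls k) (ls k) 1

/-- The weight `α` plus `f i` times the edge `i` of the matching plus `2 ε` at the last vertex. -/
structure Wgt {k : ℕ} (π : Equiv.Perm (Fin k)) (α ω : Fin (2 * k + 1) → ℤ) (f : Fin k → ℕ)
    (ε : ℕ) : Prop where
  l : ∀ i, ω (lf i) = α (lf i) + f i
  r : ∀ i, ω (rt (π i)) = α (rt (π i)) + f i
  e : ω (ls k) = α (ls k) + 2 * ε

/-- A step: from `(f, ε)` to `(f', ε')`. -/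
inductive Stp {k : ℕ} (f : Fin k → ℕ) (ε : ℕ) : (Fin k → ℕ) → ℕ → Prop
  | edge (i : Fin k) : Stp f ε (Function.update f i (f i + 1)) ε
  | loop : Stp f ε f (ε + 1)

private theorem Mch_lr {k : ℕ} (i j : Fin k) : (lf i : Fin (2 * k + 1)) ≠ rt j := by
  intro h
  have h1 : i.val = k + j.val := congrArg (fun x : Fin (2 * k + 1) => x.val) h
  omega

private theorem Mch_ll {k : ℕ} (i : Fin k) : (lf i : Fin (2 * k + 1)) ≠ ls k := by
  intro h
  have h1 : i.val = 2 * k := congrArg (fun x : Fin (2 * k + 1) => x.val) h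
  omega

private theorem Mch_rl {k : ℕ} (i : Fin k) : (rt i : Fin (2 * k + 1)) ≠ ls k := by
  intro h
  have h1 : k + i.val = 2 * k := congrArg (fun x : Fin (2 * k + 1) => x.val) h
  omega

private theorem Mch_li {k : ℕ} {i j : Fin k} (h : (lf i : Fin (2 * k + 1)) = lf j) : i = j := by
  have h1 : i.val = j.val := congrArg (fun x : Fin (2 * k + 1) => x.val) h
  exact Fin.ext h1

private theorem Mch_ri {k : ℕ} {i j : Fin k} (h : (rt i : Fin (2 * k + 1)) = rt j) : i = j := by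
  have h1 : k + i.val = k + j.val := congrArg (fun x : Fin (2 * k + 1) => x.val) h
  exact Fin.ext (by omega)

private theorem Mch_edge {k : ℕ} {π : Equiv.Perm (Fin k)} {v v' : Fin (2 * k + 1) → ℤ}
    (i : Fin k) (hv : v' = v + Pi.single (lf i) 1 + Pi.single (rt (π i)) 1)
    {α : Fin (2 * k + 1) → ℤ} {f : Fin k → ℕ} {ε : ℕ} (h : Wgt π α v f ε) :
    Wgt π α v' (Function.update f i (f i + 1)) ε := by
  subst hv
  refine ⟨fun j => ?_, fun j => ?_, ?_⟩
  · rw [Pi.add_apply, Pi.add_apply, h.l, Pi.single_apply, Pi.single_apply,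
      if_neg (Mch_lr j (π i)), Function.update_apply]
    by_cases hj : j = i
    · rw [if_pos (by rw [hj]), if_pos hj, hj]
      push_cast
      ring
    · rw [if_neg (fun hh => hj (Mch_li hh)), if_neg hj]
      ring
  · rw [Pi.add_apply, Pi.add_apply, h.r, Pi.single_apply, Pi.single_apply,
      if_neg (Mch_lr i (π j)).symm, Function.update_apply]
    by_cases hj : j = i
    · rw [if_pos (by rw [hj]), if_pos hj, hj]
      push_cast
      ring
    · rw [if_neg (fun hh => hj (π.injective (Mch_ri hh))), if_neg hj]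
      ring
  · rw [Pi.add_apply, Pi.add_apply, h.e, Pi.single_apply, Pi.single_apply,
      if_neg (Mch_ll i).symm, if_neg (Mch_rl (π i)).symm]
    ring

private theorem Mch_loop {k : ℕ} {π : Equiv.Perm (Fin k)} {v v' : Fin (2 * k + 1) → ℤ}
    (hv : v' = v + Pi.single (ls k) 1 + Pi.single (ls k) 1)
    {α : Fin (2 * k + 1) → ℤ} {f : Fin k → ℕ} {ε : ℕ} (h : Wgt π α v f ε) :
    Wgt π α v' f (ε + 1) := by
  subst hv
  refine ⟨fun j => ?_, fun j => ?_, ?_⟩
  · rw [Pi.add_apply, Pi.add_apply, h.l, Pi.single_apply, if_neg (Mch_ll j)]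
    ring
  · rw [Pi.add_apply, Pi.add_apply, h.r, Pi.single_apply, if_neg (Mch_rl (π j))]
    ring
  · rw [Pi.add_apply, Pi.add_apply, h.e, Pi.single_apply, if_pos rfl]
    push_cast
    ring

theorem mc_entry {k m : ℕ} {c : ℂ} {L : Matrix (Fin m) (Fin m) ℂ}
    {M : Matrix (Fin (2 * k + 1)) (Fin (2 * k + 1)) ℂ →ₗ[ℂ] Matrix (Fin m) (Fin m) ℂ}
    {w w' : Fin m → Fin (2 * k + 1) → ℤ} (hG : Zg (2 * k + 1) m c L M w w')
    (π : Equiv.Perm (Fin k)) {b a : Fin m} (h : (L + M (mcM π)) b a ≠ 0) :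
    w' b = w a ∨ (w' b ≠ w a ∧ ∀ (α : Fin (2 * k + 1) → ℤ) (f : Fin k → ℕ) (ε : ℕ),
      Wgt π α (w a) f ε → ∃ f' ε', Stp f ε f' ε' ∧ Wgt π α (w' b) f' ε') := by
  by_cases hw : w' b = w a
  · exact Or.inl hw
  right
  refine ⟨hw, fun α f ε hW => ?_⟩
  have hL : L b a = 0 := by
    by_contra h0
    exact hw (hG.gL b a h0)
  rw [Matrix.add_apply, hL, zero_add] at h
  unfold mcM at h
  rw [map_add, map_sum, Matrix.add_apply, Matrix.sum_apply] at h
  by_cases hl : M (Matrix.single (ls k) (ls k) 1) b a = 0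
  · rw [hl, add_zero] at h
    obtain ⟨i, -, hi⟩ := Finset.exists_ne_zero_of_sum_ne_zero h
    rw [map_sub, Matrix.sub_apply] at hi
    refine ⟨_, _, Stp.edge i, Mch_edge i ?_ hW⟩
    by_cases h2 : M (Matrix.single (lf i) (rt (π i)) 1) b a = 0
    · rw [h2, zero_sub] at hi
      have h3 := hG.gE b a _ _ (neg_ne_zero.1 hi)
      rw [h3, add_right_comm]
    · exact hG.gE b a _ _ h2
  · exact ⟨_, _, Stp.loop, Mch_loop (hG.gE b a _ _ hl) hW⟩

end PadDet.Eq
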