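import Pool.Agent.H.MP_d7db32_ag.Eq.T.Mch

/-!
# MP_d7db32_ag, Eq/T/Mcn: the form at a matching and a loop

`mc_ne`: `mcM π = A + E_{ls, ls}` with `A` skew. `Fv (A + E) = 2 ^ (2 k) .. * (adj A) ls ls` up to a factor which is not zero (`Fv_add` in Tri, see `exists_skew` in CaseD and `cyc_val` in R/Cyc for the same computation);
`(adj A) ls ls` is the determinant of `B = A.updateRow ls (Pi.single ls 1)` (`Matrix.adjugate_apply`) `= A + E_{ls, ls}` (the row `ls` of `A` is zero) and `B * B` is the diagonal matrix with entries `- 1` and `1` at `ls`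
(`B e_{rt (π i)} = e_{lf i}`, `B e_{lf i} = - e_{rt (π i)}`), so `det B ≠ 0`.
-/

set_option autoImplicit false

namespace PadDet.Eq

open Matrix

private theorem Mcn_lr {k : ℕ} (i j : Fin k) : (lf i : Fin (2 * k + 1)) ≠ rt j := by
  intro h
  have h1 : i.val = k + j.val := congrArg (fun x : Fin (2 * k + 1) => x.val) h
  omega

private theorem Mcn_ll {k : ℕ} (i : Fin k) : (lf i : Fin (2 * k + 1)) ≠ ls k := by
  intro h
  have h1 : i.val = 2 * k := congrArg (fun x : Fin (2 * k + 1) => x.val) h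
  omega

private theorem Mcn_rl {k : ℕ} (i : Fin k) : (rt i : Fin (2 * k + 1)) ≠ ls k := by
  intro h
  have h1 : k + i.val = 2 * k := congrArg (fun x : Fin (2 * k + 1) => x.val) h
  omega

private theorem Mcn_li {k : ℕ} {i j : Fin k} (h : (lf i : Fin (2 * k + 1)) = lf j) : i = j := by
  have h1 : i.val = j.val := congrArg (fun x : Fin (2 * k + 1) => x.val) h
  exact Fin.ext h1

private theorem Mcn_ri {k : ℕ} {i j : Fin k} (h : (rt i : Fin (2 * k + 1)) = rt j) : i = j := by
  have h1 : k + i.val = k + j.val := congrArg (fun x : Fin (2 * k + 1) => x.val) h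
  exact Fin.ext (by omega)

private theorem Mcn_cases {k : ℕ} (v : Fin (2 * k + 1)) :
    (∃ i : Fin k, v = lf i) ∨ (∃ i : Fin k, v = rt i) ∨ v = ls k := by
  obtain ⟨v, hv⟩ := v
  by_cases h1 : v < k
  · exact Or.inl ⟨⟨v, h1⟩, rfl⟩
  by_cases h2 : v < 2 * k
  · refine Or.inr (Or.inl ⟨⟨v - k, by omega⟩, Fin.ext ?_⟩)
    change v = k + (v - k)
    omega
  · refine Or.inr (Or.inr (Fin.ext ?_))
    change v = 2 * k
    omega

private noncomputable def Mcn_A {k : ℕ} (π : Equiv.Perm (Fin k)) :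
    Matrix (Fin (2 * k + 1)) (Fin (2 * k + 1)) ℂ :=
  ∑ i, (Matrix.single (lf i) (rt (π i)) 1 - Matrix.single (rt (π i)) (lf i) 1)

private theorem Mcn_skew {k : ℕ} (π : Equiv.Perm (Fin k)) : (Mcn_A π)ᵀ = -Mcn_A π := by
  unfold Mcn_A
  rw [Matrix.transpose_sum, ← Finset.sum_neg_distrib]
  refine Finset.sum_congr rfl fun i _ => ?_
  rw [Matrix.transpose_sub, Matrix.transpose_single, Matrix.transpose_single, neg_sub]

private theorem Mcn_mul {k : ℕ} (π : Equiv.Perm (Fin k)) (x : Fin (2 * k + 1) → ℂ)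
    (v : Fin (2 * k + 1)) : (Mcn_A π *ᵥ x) v =
      ∑ i, ((if v = lf i then x (rt (π i)) else 0) - (if v = rt (π i) then x (lf i) else 0)) := by
  have hs : ∀ a b : Fin (2 * k + 1), ((Matrix.single a b (1 : ℂ)) *ᵥ x) v =
      if v = a then x b else 0 := by
    intro a b
    rw [Matrix.mulVec, dotProduct, Finset.sum_eq_single b]
    · rw [Matrix.single_apply]
      by_cases h : v = a
      · rw [if_pos ⟨h.symm, rfl⟩, if_pos h, one_mul]
      · rw [if_neg (fun hh => h hh.1.symm), if_neg h, zero_mul]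
    · intro c _ hc
      rw [Matrix.single_apply, if_neg (fun hh => hc hh.2.symm), zero_mul]
    · intro h
      exact absurd (Finset.mem_univ b) h
  unfold Mcn_A
  rw [Matrix.sum_mulVec, Finset.sum_apply]
  refine Finset.sum_congr rfl fun i _ => ?_
  rw [Matrix.sub_mulVec, Pi.sub_apply, hs, hs]

private theorem Mcn_adj {k : ℕ} (π : Equiv.Perm (Fin k)) :
    (Mcn_A π).adjugate (ls k) (ls k) ≠ 0 := by
  rw [Matrix.adjugate_apply]
  intro h0
  obtain ⟨x, hx0, hx⟩ := Matrix.exists_mulVec_eq_zero_iff.2 h0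
  have hl : x (ls k) = 0 := by
    have h1 := congrFun hx (ls k)
    rw [Matrix.mulVec, Matrix.updateRow_self, single_one_dotProduct] at h1
    exact h1
  have hj : ∀ j, j ≠ ls k → (Mcn_A π *ᵥ x) j = 0 := by
    intro j hj
    have h1 := congrFun hx j
    rw [Matrix.mulVec, Matrix.updateRow_ne hj] at h1
    exact h1
  have hr : ∀ i, x (rt (π i)) = 0 := by
    intro i
    have h1 := hj (lf i) (Mcn_ll i)
    rw [Mcn_mul, Finset.sum_eq_single i] at h1
    · rw [if_pos rfl, if_neg (Mcn_lr i (π i)), sub_zero] at h1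
      exact h1
    · intro j _ hji
      rw [if_neg (fun hh => hji (Mcn_li hh).symm), if_neg (Mcn_lr i (π j)), sub_zero]
    · intro h
      exact absurd (Finset.mem_univ i) h
  have hf : ∀ i, x (lf i) = 0 := by
    intro i
    have h1 := hj (rt (π i)) (Mcn_rl (π i))
    rw [Mcn_mul, Finset.sum_eq_single i] at h1
    · rw [if_neg (Mcn_lr i (π i)).symm, if_pos rfl, zero_sub] at h1
      exact neg_eq_zero.1 h1
    · intro j _ hji
      rw [if_neg (Mcn_lr j (π i)).symm, if_neg (fun hh => hji (π.injective (Mcn_ri hh)).symm),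
        sub_zero]
    · intro h
      exact absurd (Finset.mem_univ i) h
  refine hx0 (funext fun v => ?_)
  rcases Mcn_cases v with ⟨i, rfl⟩ | ⟨i, rfl⟩ | rfl
  · exact hf i
  · have h1 := hr (π.symm i)
    rw [Equiv.apply_symm_apply] at h1
    exact h1
  · exact hl

theorem mc_ne {k : ℕ} (π : Equiv.Perm (Fin k)) : Fv (mcM π) ≠ 0 := by
  have h1 : mcM π = Mcn_A π + (1 : ℂ) • Matrix.single (ls k) (ls k) 1 := by
    rw [one_smul]
    rfl
  rw [h1, Fv_add k (Mcn_A π) (Mcn_skew π) (ls k) 1, one_mul]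
  exact mul_ne_zero (pow_ne_zero _ two_ne_zero) (Mcn_adj π)

end PadDet.Eq
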